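import Pool.Agent.H.MP_ef1120_an.C

set_option autoImplicit false

namespace Pool.Agent.Results.MP_ef1120_an.No

universe u

theorem result (X : Type u) [NormedAddCommGroup X] [NormedSpace ℝ X]
    [TopologicalSpace.SeparableSpace X] :
    ∃ r : ℝ, r < 2 ∧ 0 < r ∧ ∃ P : Set X,
      (∀ p ∈ P, ∀ q ∈ P, p ≠ q → 2 ≤ ‖p - q‖) ∧ ∀ x : X, ∃ p ∈ P, ‖x - p‖ ≤ r :=
  Pool.Agent.H.MP_ef1120_an.sep

end Pool.Agent.Results.MP_ef1120_an.No
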